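import Pool.Agent.X155.SGrp
import Pool.Agent.X155.CoshFinal

/-!
# MP_c8715f_al (Q1): a non-separable metrizable abelian group whose dual is not an s-group
-/

set_option autoImplicit false

open Filter Topology

namespace Pool.Agent.Results.MP_c8715f_al.DualNotSGroup

open Pool.Agent.X155.SGrp

/-- `t` is a Hausdorff group topology on the abelian group `X`. -/
def IsHausdorffGroupTopology (X : Type) [AddCommGroup X] (t : TopologicalSpace X) : Prop :=
  @IsTopologicalAddGroup X t _ ∧ @T2Space X t

/-- Every sequence of `S` converges to `0` in the topology `t`. -/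
def AllConverge (X : Type) [AddCommGroup X] (S : Set (ℕ → X)) (t : TopologicalSpace X) : Prop :=
  ∀ s ∈ S, Tendsto s atTop (@nhds X t 0)

/-- `S` is a TS-set: some Hausdorff group topology makes every sequence of `S` converge to `0`. -/
def IsTSSet (X : Type) [AddCommGroup X] (S : Set (ℕ → X)) : Prop :=
  ∃ t, IsHausdorffGroupTopology X t ∧ AllConverge X S t

/-- `t` is the finest Hausdorff group topology in which every sequence of `S` converges to `0`
(for topologies, `t ≤ t'` means that `t` is finer than `t'`). -/
def IsFinestFor (X : Type) [AddCommGroup X] (S : Set (ℕ → X)) (t : TopologicalSpace X) : Prop :=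
  IsHausdorffGroupTopology X t ∧ AllConverge X S t ∧
    ∀ t', IsHausdorffGroupTopology X t' → AllConverge X S t' → t ≤ t'

/-- `(X, t)` is an s-group: `t` is the topology `τ_S` for some TS-set `S` of sequences. -/
def IsSGroup (X : Type) [AddCommGroup X] [t : TopologicalSpace X] : Prop :=
  ∃ S : Set (ℕ → X), IsTSSet X S ∧ IsFinestFor X S t

/-- The dual group: continuous characters with values in `𝕋 = ℝ/ℤ`, with the compact-open
topology (Mathlib's topology on `ContinuousAddMonoidHom`). -/
abbrev Dual (G : Type) [AddCommGroup G] [TopologicalSpace G] : Type :=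
  ContinuousAddMonoidHom G (AddCircle (1 : ℝ))

/-- In an s-group every sequentially continuous character is continuous. -/
theorem continuous_of_seq (X : Type) [AddCommGroup X] [t : TopologicalSpace X] (h : IsSGroup X)
    (φ : X →+ AddCircle (1 : ℝ))
    (hφ : ∀ s : ℕ → X, Tendsto s atTop (𝓝 0) → Tendsto (fun n => φ (s n)) atTop (𝓝 0)) :
    Continuous φ := by
  obtain ⟨S, _, ⟨hgrp, hT2⟩, hS, hfin⟩ := h
  have hind : @IsTopologicalAddGroup X (TopologicalSpace.induced φ inferInstance) _ :=
    topologicalAddGroup_induced φ
  have hle : t ≤ t ⊓ TopologicalSpace.induced φ inferInstance := by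
    apply hfin
    · constructor
      · exact topologicalAddGroup_inf hgrp hind
      · exact @T2Space.mk X (_) (by
          intro x y hxy
          obtain ⟨u, v, hu, hv, hx, hy, huv⟩ := t2_separation hxy
          refine ⟨u, v, ?_, ?_, hx, hy, huv⟩
          · exact (inf_le_left : t ⊓ TopologicalSpace.induced φ inferInstance ≤ t) u hu
          · exact (inf_le_left : t ⊓ TopologicalSpace.induced φ inferInstance ≤ t) v hv)
    · intro s hs
      rw [nhds_inf, tendsto_inf]
      refine ⟨hS s hs, ?_⟩
      rw [nhds_induced, tendsto_comap_iff, map_zero]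
      exact hφ s (hS s hs)
  rw [continuous_iff_le_induced]
  exact hle.trans inf_le_right

/-- There is a Hausdorff abelian topological group `G` which is metrizable and non-separable (and
hence also Fréchet–Urysohn and sequential) whose dual `G^∧` is not an s-group. -/
theorem result : ∃ (G : Type) (_ : AddCommGroup G) (_ : TopologicalSpace G),
    IsTopologicalAddGroup G ∧ T2Space G ∧ TopologicalSpace.MetrizableSpace G ∧
    ¬ TopologicalSpace.SeparableSpace G ∧ FrechetUrysohnSpace G ∧ SequentialSpace G ∧
    ¬ IsSGroup (Dual G) := by
  have hU : ∀ s : ℕ → Pool.Agent.X155.Cosh.W1, ∃ b, ∀ n, s n < b :=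
    Pool.Agent.X155.Cosh.exists_above Pool.Agent.X155.Cosh.W1_countable
      Pool.Agent.X155.Cosh.W1_inj
  refine ⟨GG Pool.Agent.X155.Cosh.W1, inferInstance, inferInstance, inferInstance, inferInstance,
    inferInstance, not_separable hU, inferInstance, inferInstance, ?_⟩
  intro h
  exact Phi_not_continuous hU (continuous_of_seq _ h (PhiHom hU) (Phi_seq hU))

end Pool.Agent.Results.MP_c8715f_al.DualNotSGroup
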